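import Pool.Agent.helper75.LC.Spec

/-! # Row lc:PHE of project lc (MP_8aef6e) -/

set_option autoImplicit false

namespace Pool.Agent.LC

open MX MG

open scoped MatrixGroups

theorem PHE_one {H V : Type} [Group H] [AddCommGroup V] [DistribMulAction H V] (d : H → V) (hd : d ∈ Der H V) :
    d 1 = 0 := by
  have h := hd 1 1
  rw [mul_one, one_smul] at h
  exact left_eq_add.1 h

theorem PHE_conj {H Hq V : Type} [Group H] [Group Hq] [AddCommGroup V] [DistribMulAction H V] (q : H →* Hq)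
    (hq : ∀ k ∈ q.ker, ∀ v : V, k • v = v) (d : H → V) (hd : d ∈ Der H V) (h k : H) (hk : k ∈ q.ker) :
    d (h * k * h⁻¹) = h • d k := by
  have h1 : d (h * k * h⁻¹) = d h + h • d k + (h * k) • d h⁻¹ := by
    rw [hd (h * k) h⁻¹, hd h k]
  have h2 : d h + h • d h⁻¹ = 0 := by
    rw [← hd h h⁻¹, mul_inv_cancel, PHE_one d hd]
  have h3 : (h * k * h⁻¹) • (h • d h⁻¹) = h • d h⁻¹ :=
    hq _ ((MonoidHom.normal_ker q).conj_mem k hk h) _
  have h4 : (h * k) • d h⁻¹ = h • d h⁻¹ := by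
    rw [← h3, smul_smul]
    simp
  rw [h1, h4, add_right_comm, h2, zero_add]

theorem PHE : PHE_stmt := by
  intro H Hq V _ _ _ _ _ _ q hq b hb hs hi
  have hinj : ∀ k ∈ q.ker, ∀ k' ∈ q.ker, b k = b k' → k = k' := by
    intro k hk k' hk' h
    have h1 : b (k * k'⁻¹) = 0 := by
      have h2 : b (k * k'⁻¹) = b k + b k'⁻¹ := by rw [hb k k'⁻¹, hq k hk]
      have h3 : b k' + b k'⁻¹ = 0 := by
        have := hb k' k'⁻¹
        rw [hq k' hk', mul_inv_cancel, PHE_one b hb] at this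
        exact this.symm
      rw [h2, h, h3]
    exact mul_inv_eq_one.1 (hi _ (q.ker.mul_mem hk (q.ker.inv_mem hk')) h1)
  choose s hsk hsb using hs
  have hadd : ∀ v w, s (v + w) = s v * s w := by
    intro v w
    refine hinj _ (hsk _) _ (q.ker.mul_mem (hsk v) (hsk w)) ?_
    rw [hsb, hb, hq _ (hsk v), hsb, hsb]
  have hsm : ∀ (h : H) v, s (h • v) = h * s v * h⁻¹ := by
    intro h v
    refine hinj _ (hsk _) _ ((MonoidHom.normal_ker q).conj_mem _ (hsk v) h) ?_
    rw [hsb, PHE_conj q hq b hb h _ (hsk v), hsb]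
  have hsr : ∀ c : q.ker, s (b c) = c := fun c => hinj _ (hsk _) _ c.2 (hsb _)
  have hfa : ∀ f ∈ PhiS V q, ∀ c c' : q.ker, f (c * c') = f c + f c' := by
    rintro f ⟨α, hα, hf⟩ c c'
    rw [hf, hf, hf]
    have := hα c c'
    rw [hq _ c.2] at this
    exact this
  have hfs : ∀ f ∈ PhiS V q, ∀ (h : H) (v : V), f ⟨s (h • v), hsk _⟩ = h • f ⟨s v, hsk v⟩ := by
    rintro f ⟨α, hα, hf⟩ h v
    rw [hf, hf]
    change α (s (h • v)) = h • α (s v)
    rw [hsm, PHE_conj q hq α hα h _ (hsk v)]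
  let F : PhiS V q → EndH H V := fun f =>
    ⟨AddMonoidHom.mk' (fun v => f.1 ⟨s v, hsk v⟩) (fun v w => by
      rw [← hfa f.1 f.2]
      exact congrArg f.1 (Subtype.ext (hadd v w))), fun h v => hfs f.1 f.2 h v⟩
  have : Finite (EndH H V) := by
    have : Finite (V →+ V) := DFunLike.finite _
    exact Subtype.finite
  refine Nat.card_le_card_of_injective F ?_
  intro f f' hff
  refine Subtype.ext (funext fun c => ?_)
  have h1 := DFunLike.congr_fun (congrArg Subtype.val hff) (b c)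
  have h2 : (⟨s (b c), hsk _⟩ : q.ker) = c := Subtype.ext (hsr c)
  change f.1 ⟨s (b c), hsk _⟩ = f'.1 ⟨s (b c), hsk _⟩ at h1
  rw [h2] at h1
  exact h1

end Pool.Agent.LC
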